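import Mathlib

/-! Lorentz ideals, joint spectral measures of `n`-tuples, spectral integrals and absolutely
continuous vectors, as used in the statement. -/

open MeasureTheory Set
open scoped InnerProductSpace

namespace Pool.Agent.Work.MP_707689_an.N

variable {H : Type} [NormedAddCommGroup H] [InnerProductSpace ℂ H] [CompleteSpace H] {n : ℕ}

/-- the singular value `s (k + 1)`: the distance to the operators of rank at most `k` -/
noncomputable def sv (T : H →L[ℂ] H) (k : ℕ) : ℝ :=
  sInf {r : ℝ | ∃ F : H →L[ℂ] H,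
    Module.rank ℂ (LinearMap.range (F : H →ₗ[ℂ] H)) ≤ (k : Cardinal) ∧ r = ‖T - F‖}

/-- membership in the Lorentz ideal with exponent `p` -/
def Lor (p : ℝ) (T : H →L[ℂ] H) : Prop :=
  IsCompactOperator T ∧ Summable fun k : ℕ => sv T k * ((k : ℝ) + 1) ^ (1 / p - 1)

/-- `μ` is the scalar measure of `E` at the vector `x` -/
def IsScal (E : Set (Fin n → ℝ) → H →L[ℂ] H) (x : H) (μ : Measure (Fin n → ℝ)) : Prop :=
  ∀ S, MeasurableSet S → μ S = ‖E S x‖ₑ ^ 2

/-- `T` is the integral of `f` against `E` -/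
def IsInt (E : Set (Fin n → ℝ) → H →L[ℂ] H) (f : (Fin n → ℝ) → ℂ) (T : H →L[ℂ] H) : Prop :=
  ∀ x μ, IsScal E x μ → Integrable f μ ∧ ⟪x, T x⟫_ℂ = ∫ y, f y ∂μ

/-- `E` is a projection valued measure on the Borel sets of `n`-space whose coordinate integrals
are the operators `A j` -/
structure IsSpec (A : Fin n → H →L[ℂ] H) (E : Set (Fin n → ℝ) → H →L[ℂ] H) : Prop where
  sa : ∀ S, MeasurableSet S → IsSelfAdjoint (E S)
  inter : ∀ S T, MeasurableSet S → MeasurableSet T → E (S ∩ T) = E S * E T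
  univ : E univ = 1
  meas : ∀ x, ∃ μ, IsScal E x μ
  int : ∀ j, IsInt E (fun y => (y j : ℂ)) (A j)

/-- the vector `x` is Lebesgue absolutely continuous for `E` -/
def AC (E : Set (Fin n → ℝ) → H →L[ℂ] H) (x : H) : Prop :=
  ∀ S, MeasurableSet S → volume S = 0 → E S x = 0

end Pool.Agent.Work.MP_707689_an.N
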