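import Pool.Agent.Work.MP_707689_an.Parked.HybridWave

/-! Check: the hand-in contains the case of the ideals `C_p^-` and the limit of
`exp(-itB j) exp(itA j)` asked for in the problem. -/

open MeasureTheory Set Filter Topology Complex
open scoped Real FourierTransform

namespace Pool.Agent.Work.MP_707689_an.N

variable {H : Type} [NormedAddCommGroup H] [InnerProductSpace ℂ H] [CompleteSpace H] {n : ℕ}

theorem isInt_ex {A : Fin n → H →L[ℂ] H} {E : Set (Fin n → ℝ) → H →L[ℂ] H} (hE : IsSpec A E)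
    (j : Fin n) (t : ℝ) : IsInt E (ch (Pi.single j t)) (NormedSpace.exp ((I * t) • A j)) := by
  obtain ⟨μ, h, m⟩ := hE.sp
  intro x ν hν
  obtain rfl : ν = μ x := Measure.ext fun S hS => (hν S hS).trans (m x S hS).symm
  have e : Ex A (Pi.single j t) = NormedSpace.exp ((I * t) • A j) := by
    rw [Ex, ex, Finset.sum_eq_single j (fun i _ hi => by simp [hi]) (by simp), smul_smul]
    simp
  exact ⟨(h.ch _).int x, e ▸ (h.ch _).eq x⟩

theorem rl (j : Fin n) (g : (Fin n → ℝ) → ℂ) :
    Tendsto (fun t : ℝ => ∫ y, ch (Pi.single j t) y * g y) atTop (𝓝 0) := by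
  set L : StrongDual ℝ (Fin n → ℝ) := ContinuousLinearMap.proj j with hL
  have h0 : 0 < ‖L‖ := norm_pos_iff.2 fun h => by simpa [hL] using DFunLike.congr_fun h 1
  have h1 : Tendsto (fun t : ℝ => (-(t / (2 * π))) • L) atTop (cocompact _) := by
    refine tendsto_cocompact_of_tendsto_dist_comp_atTop 0 ?_
    simp only [dist_zero_right, norm_smul, norm_neg]
    exact (tendsto_abs_atTop_atTop.comp (tendsto_id.atTop_div_const
      (by positivity))).atTop_mul_const h0
  refine ((tendsto_integral_exp_smul_cocompact g volume).comp h1).congr fun t => ?_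
  refine integral_congr_ae (.of_forall fun y => ?_)
  simp only [Circle.smul_def, Real.fourierChar_apply, smul_eq_mul, ch, hL, smul_apply,
    ContinuousLinearMap.proj_apply]
  rw [Finset.sum_eq_single j (fun i _ hi => by simp [hi]) (by simp), mul_comm I]
  congr 4
  have := Real.pi_pos
  simp only [Pi.single_eq_same]
  field_simp

theorem lor (hn : 2 ≤ n) (A B : Fin n → H →L[ℂ] H) (E E' : Set (Fin n → ℝ) → H →L[ℂ] H)
    (hE : IsSpec A E) (hE' : IsSpec B E') (p : Fin n → ℝ) (hp : ∀ j, 0 < p j)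
    (hs : 1 ≤ ∑ j, 1 / p j) (hK : ∀ j, Lor (p j) (A j - B j)) :
    ∃ W : H →L[ℂ] H,
      (∀ (ι : Type) (l : Filter ι) [l.IsCountablyGenerated] (f : ι → (Fin n → ℝ) → ℂ)
        (S T : ι → H →L[ℂ] H), (∀ i, Measurable (f i)) → (∀ i y, ‖f i y‖ = 1) →
        (∀ g : (Fin n → ℝ) → ℂ, Integrable g → Tendsto (fun i => ∫ y, f i y * g y) l (𝓝 0)) →
        (∀ i, IsInt E (f i) (S i)) → (∀ i, IsInt E' (f i) (T i)) →
        ∀ x, AC E x → Tendsto (fun i => star (T i) (S i x)) l (𝓝 (W x))) ∧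
      (∀ x, AC E x → ‖W x‖ = ‖x‖ ∧ ∀ j, W (A j x) = B j (W x)) ∧
      W '' {x | AC E x} = {y | AC E' y} := by
  have : Nontrivial (Fin n) := Fin.nontrivial_iff_two_le.2 hn
  have hp' := fun j => one_div_pos.2 (hp j)
  have h0 : 0 < ∑ j, 1 / p j := one_pos.trans_le hs
  set a : Fin n → ℝ := fun j => 1 / p j / ∑ j, 1 / p j with hd
  have ha : ∀ j, 0 < a j := fun j => div_pos (hp' j) h0
  have hs1 : ∑ j, a j = 1 := by rw [hd, ← Finset.sum_div, div_self h0.ne']
  have ha1 : ∀ j, a j < 1 := fun j => by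
    obtain ⟨i, hi⟩ := exists_ne j
    rw [← hs1]
    exact Finset.single_lt_sum hi (Finset.mem_univ j) (Finset.mem_univ i) (ha i)
      fun k _ _ => (ha k).le
  obtain ⟨i, -, hi⟩ := Finset.exists_max_image Finset.univ a Finset.univ_nonempty
  refine Pool.Agent.Work.MP_707689_an.Parked.HybridWave.result H n A B E E' hE hE'
    (fun j k => (k : ℝ) ^ a j) (2 ^ a i) ?_
    (fun j k l h => Real.rpow_le_rpow (Nat.cast_nonneg _) (Nat.cast_le.2 h) (ha j).le)
    (fun j => by positivity) (fun j k _ => ?_) (fun k hk => ?_) fun j => ?_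
  · simpa using Real.rpow_lt_rpow_of_exponent_lt one_lt_two (ha1 i)
  · push_cast
    rw [Real.mul_rpow zero_le_two (Nat.cast_nonneg _)]
    exact mul_le_mul_of_nonneg_right (Real.rpow_le_rpow_of_exponent_le one_le_two
      (hi j (Finset.mem_univ j))) (by positivity)
  · rw [← Real.rpow_sum_of_pos (by exact_mod_cast hk), hs1, Real.rpow_one]
  · refine (hK j).2.of_nonneg_of_le (fun k => ?_) fun k => ?_
    · have : 0 ≤ sv (A j - B j) k := sval_nonneg _ k
      positivity
    · rw [mul_div_assoc, Nat.cast_succ, ← Real.rpow_sub_one (by positivity)]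
      exact mul_le_mul_of_nonneg_left (Real.rpow_le_rpow_of_exponent_le (by simp)
        (sub_le_sub_right (div_le_self (hp' j).le hs) _)) (sval_nonneg _ k)

theorem q1 (hn : 2 ≤ n) (A B : Fin n → H →L[ℂ] H) (E E' : Set (Fin n → ℝ) → H →L[ℂ] H)
    (hE : IsSpec A E) (hE' : IsSpec B E') (hK : ∀ j, Lor n (A j - B j))
    (hac : ∀ S, MeasurableSet S → volume S = 0 → E S = 0) (j : Fin n) (x : H) :
    ∃ y, Tendsto (fun t : ℝ => NormedSpace.exp ((-(I * t)) • B j)
      (NormedSpace.exp ((I * t) • A j) x)) atTop (𝓝 y) := by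
  have h0 : (0 : ℝ) < n := by exact_mod_cast two_pos.trans_le hn
  obtain ⟨W, h, -⟩ := lor hn A B E E' hE hE'
    (fun _ => n) (fun _ => h0) (by simp [h0.ne']) hK
  refine ⟨W x, (h ℝ atTop _ _ _ (fun t => (ch_cont _).measurable) (fun t => ch_norm _)
    (fun g _ => rl j g) (isInt_ex hE j) (isInt_ex hE' j) x
    fun S h1 h2 => by simp [hac S h1 h2]).congr fun t => ?_⟩
  obtain ⟨μ', h', -⟩ := hE'.sp
  rw [NormedSpace.star_exp, star_smul, (h'.int j).sa.star_eq]
  simp

end Pool.Agent.Work.MP_707689_an.N
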